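import Pool.Agent.Helper1.KL.Stmts2
import Pool.Agent.Helper1.KL.GeneralB

set_option autoImplicit false
set_option linter.unusedSectionVars false

/-!
Project KL (MP_0b9e0b_ag), KL-14d and KL-7b: the dimension of a good point is at most the number of
its affine coordinates; if it is equal to this number then the coordinates `x i` are algebraically
independent and `SS 0 z` does not depend on the point.
-/

namespace Pool.Agent.Helper1.KL

open Pool.Agent.Helper16

section gen

variable {F E ι : Type} [Field F] [Field E] [Algebra F E]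

theorem isAlgebraic_adjoin_range (x : ι → E) (y : ι → IntermediateField.adjoin F (Set.range x))
    (hy : ∀ i, (y i : E) = x i) :
    Algebra.IsAlgebraic (Algebra.adjoin F (Set.range y))
      (IntermediateField.adjoin F (Set.range x)) := by
  have hSimg : ((↑) : IntermediateField.adjoin F (Set.range x) → E) '' Set.range y =
      Set.range x := by
    rw [← Set.range_comp]
    congr 1
    funext i
    exact hy i
  have htop : IntermediateField.adjoin F (Set.range y) = ⊤ := by
    apply IntermediateField.map_injective (IntermediateField.adjoin F (Set.range x)).val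
    rw [IntermediateField.adjoin_map, ← AlgHom.fieldRange_eq_map,
      IntermediateField.fieldRange_val]
    have e : ((IntermediateField.adjoin F (Set.range x)).val :
        IntermediateField.adjoin F (Set.range x) → E) '' Set.range y = Set.range x := hSimg
    rw [e]
  rw [← IntermediateField.isAlgebraic_adjoin_iff_top, htop,
    Algebra.isAlgebraic_iff_isIntegral]
  exact Algebra.isIntegral_of_surjective IntermediateField.topEquiv.surjective

/-- The elements of a generating system in their own field. -/
def inAdj (x : ι → E) (i : ι) : IntermediateField.adjoin F (Set.range x) :=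
  ⟨x i, IntermediateField.subset_adjoin F _ ⟨i, rfl⟩⟩

theorem trdeg_adjoin_le_card [Fintype ι] (x : ι → E) :
    Algebra.trdeg F (IntermediateField.adjoin F (Set.range x)) ≤ (Fintype.card ι : Cardinal.{0}) := by
  have := isAlgebraic_adjoin_range (F := F) x (inAdj x) fun _ => rfl
  refine (Algebra.IsAlgebraic.trdeg_le_cardinalMk F (Set.range (inAdj (F := F) x))).trans ?_
  rw [← Cardinal.mk_fintype ι]
  exact Cardinal.mk_range_le

/-- A finite system which generates a field of maximal transcendence degree is algebraically
independent. -/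
theorem indep_of_trdeg_adjoin [Fintype ι] (x : ι → E)
    (h : (Fintype.card ι : Cardinal.{0}) ≤
      Algebra.trdeg F (IntermediateField.adjoin F (Set.range x))) :
    AlgebraicIndependent F x := by
  have := isAlgebraic_adjoin_range (F := F) x (inAdj x) fun _ => rfl
  have h1 : IsTranscendenceBasis F (inAdj (F := F) x) :=
    Algebra.IsAlgebraic.isTranscendenceBasis_of_le_trdeg_of_finite F (inAdj (F := F) x)
      (by rw [Cardinal.mk_fintype]; exact h)
  exact h1.1.map' (f := (IntermediateField.adjoin F (Set.range x)).val)
    (IntermediateField.adjoin F (Set.range x)).val.injective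

end gen

variable {k : Type} [Field k] {p : ℕ} [Fact p.Prime] {n : ℕ} {b : Fin n → k} {r : ℕ}

section

variable {N : Type} [Field N] [Algebra (RatFunc k) N] {I : Finset (Fin n)}
  {z : Fin n ⊕ Fin n → Option N}

theorem Good.fld_xpt (h : Good p b r I z) (hb : ∀ i, b i ≠ 0) :
    fld (RatFunc k) (xpt z) =
      IntermediateField.adjoin (RatFunc k) (Set.range fun i : I => xc z i) := by
  rw [fld_eq_range]
  refine le_antisymm ?_ ?_
  · rw [IntermediateField.adjoin_le_iff]
    rintro _ ⟨i, rfl⟩
    by_cases hi : i ∈ I
    · exact IntermediateField.subset_adjoin _ _ ⟨⟨i, hi⟩, rfl⟩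
    · have h1 : xc z i = 0 := (h.of_notMem hb hi).2.2.1
      change xc z i ∈ _
      rw [h1]
      exact zero_mem _
  · rw [IntermediateField.adjoin_le_iff]
    rintro _ ⟨i, rfl⟩
    exact IntermediateField.subset_adjoin _ _ ⟨i, rfl⟩

theorem Good.trdeg_adjoin (h : Good p b r I z) (hb : ∀ i, b i ≠ 0) :
    Algebra.trdeg (RatFunc k) (IntermediateField.adjoin (RatFunc k)
      (Set.range fun i : I => xc z i)) = r := by
  rw [← h.fld_xpt hb, trdeg_xpt h.mem hb]
  exact h.dim

theorem Good.dim_le (h : Good p b r I z) (hb : ∀ i, b i ≠ 0) : r ≤ I.card := by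
  have h1 := trdeg_adjoin_le_card (F := RatFunc k) fun i : I => xc z i
  rw [h.trdeg_adjoin hb, Fintype.card_coe] at h1
  exact_mod_cast h1

theorem Good.indep (h : Good p b r I z) (hb : ∀ i, b i ≠ 0) (hr : r = I.card) :
    AlgebraicIndependent (RatFunc k) fun i : I => xc z i := by
  refine indep_of_trdeg_adjoin _ ?_
  rw [h.trdeg_adjoin hb, Fintype.card_coe, hr]

open scoped Classical in
/-- The polynomial in the variables with an index in `I`. -/
noncomputable def subI (I : Finset (Fin n)) :
    MvPolynomial (Fin n ⊕ Unit) (RatFunc k) →ₐ[RatFunc k] MvPolynomial I (RatFunc k) :=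
  MvPolynomial.aeval fun j => match j with
    | Sum.inl i => if hi : i ∈ I then MvPolynomial.X ⟨i, hi⟩ else 0
    | Sum.inr _ => 0

theorem Good.aeval_red (h : Good p b r I z) (hb : ∀ i, b i ≠ 0)
    (P : MvPolynomial (Fin n ⊕ Unit) (RatFunc k)) :
    MvPolynomial.aeval (fun j => (red (0 : Fin n → ZMod p) z j).getD 0) P =
      MvPolynomial.aeval (fun i : I => xc z i) (subI I P) := by
  have h1 : (MvPolynomial.aeval (fun j => (red (0 : Fin n → ZMod p) z j).getD 0) :
      MvPolynomial (Fin n ⊕ Unit) (RatFunc k) →ₐ[RatFunc k] N) =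
      (MvPolynomial.aeval (fun i : I => xc z i)).comp (subI I) := by
    refine MvPolynomial.algHom_ext fun j => ?_
    rw [MvPolynomial.aeval_X, AlgHom.comp_apply]
    unfold subI
    rw [MvPolynomial.aeval_X]
    rcases j with i | u
    · change xc z i = _
      by_cases hi : i ∈ I
      · simp only [dif_pos hi, MvPolynomial.aeval_X]
      · simp only [dif_neg hi, map_zero]
        exact (h.of_notMem hb hi).2.2.1
    · change ec (0 : Fin n → ZMod p) z = _
      simp [ec]
  rw [h1, AlgHom.comp_apply]

theorem Good.red_ne_none (h : Good p b r I z) (hb : ∀ i, b i ≠ 0) (j : Fin n ⊕ Unit) :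
    red (0 : Fin n → ZMod p) z j = none ↔ ∃ i, j = Sum.inl i ∧ i ∉ I := by
  rcases j with i | u
  · change z (Sum.inl i) = none ↔ _
    constructor
    · intro h0
      refine ⟨i, rfl, fun hi => ?_⟩
      rw [(h.of_mem hb hi).1] at h0
      cases h0
    · rintro ⟨i', h1, h2⟩
      cases h1
      exact h.inf i h2
  · change some (ec (0 : Fin n → ZMod p) z) = none ↔ _
    simp

end

/-- KL-14d. -/
theorem modDim (hb : ∀ i, b i ≠ 0) : ModDim k p b r :=
  fun _ _ _ _ _ h => h.dim_le hb

/-- KL-7b. -/
theorem mod0' [CharP k p] (hb : ∀ i, b i ≠ 0) (hS : ModS k p b r) : Mod0' k p b r := by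
  intro N N' _ _ _ _ I z z' hr h h'
  refine (hS N N' z z' 0 h.mem h'.mem ?_).1
  rw [key_eq_iff]
  refine ⟨fun j => ?_, fun P => ?_⟩
  · rw [h.red_ne_none hb, h'.red_ne_none hb]
  · rw [h.aeval_red hb, h'.aeval_red hb]
    have e1 := h.indep hb hr
    have e2 := h'.indep hb hr
    constructor
    · intro h0
      rw [algebraicIndependent_iff.1 e1 _ h0, map_zero]
    · intro h0
      rw [algebraicIndependent_iff.1 e2 _ h0, map_zero]

end Pool.Agent.Helper1.KL
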